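import Mathlib

/-!
# Compound Poisson sums over countably many cells
-/

set_option autoImplicit false

open MeasureTheory Filter Topology ProbabilityTheory Set
open scoped ENNReal NNReal

namespace Pool.Agent.Q30.LV

noncomputable section

/-- One cell: a number of points and a sequence of marks. -/
abbrev Cell (E : Type) : Type := ℕ × (ℕ → E)

variable {E : Type} [MeasurableSpace E]

/-- the law of a cell -/
def cellM (ρ : Measure E) : Measure (Cell E) :=
  (poissonMeasure 1).prod (Measure.infinitePi fun _ : ℕ => ρ)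

instance (ρ : Measure E) [IsProbabilityMeasure ρ] : IsProbabilityMeasure (cellM ρ) := by
  unfold cellM; infer_instance

/-- the sample space -/
abbrev Om (E : Type) : Type := ℤ → Cell E

/-- the probability measure -/
def PP (ρ : Measure E) [IsProbabilityMeasure ρ] : Measure (Om E) :=
  Measure.infinitePi fun _ : ℤ => cellM ρ

instance (ρ : Measure E) [IsProbabilityMeasure ρ] : IsProbabilityMeasure (PP ρ) := by
  unfold PP; infer_instance

/-- the sum of `g` over the points of a cell -/
def cs (g : E → ℝ) (x : Cell E) : ℝ := ∑ i ∈ Finset.range x.1, g (x.2 i)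

theorem measurable_cs {g : E → ℝ} (hg : Measurable g) : Measurable (cs g) := by
  unfold cs
  have h : Measurable (fun x : ℕ × (ℕ → E) => ∑ i ∈ Finset.range x.1, g (x.2 i)) := by
    refine measurable_from_prod_countable_right fun n => ?_
    change Measurable (fun y : ℕ → E => ∑ i ∈ Finset.range n, g (y i))
    exact Finset.measurable_fun_sum _ fun i _ => hg.comp (measurable_pi_apply i)
  exact h

theorem norm_exp_I (x : ℝ) : ‖Complex.exp ((x : ℂ) * Complex.I)‖ = 1 :=
  Complex.norm_exp_ofReal_mul_I x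

theorem marks_char (ρ : Measure E) [IsProbabilityMeasure ρ] {g : E → ℝ} (hg : Measurable g) (n : ℕ) :
    ∫ y : ℕ → E, Complex.exp (((∑ i ∈ Finset.range n, g (y i) : ℝ) : ℂ) * Complex.I)
      ∂(Measure.infinitePi fun _ : ℕ => ρ) =
    (∫ e, Complex.exp ((g e : ℂ) * Complex.I) ∂ρ) ^ n := by
  have hm : Measurable (fun e : E => Complex.exp ((g e : ℂ) * Complex.I)) := by fun_prop
  have h1 : iIndepFun (fun (i : ℕ) (y : ℕ → E) => Complex.exp ((g (y i) : ℂ) * Complex.I))
      (Measure.infinitePi fun _ : ℕ => ρ) :=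
    iIndepFun_infinitePi (X := fun (_ : ℕ) (e : E) => Complex.exp ((g e : ℂ) * Complex.I))
      (fun _ => hm)
  have h2 := h1.precomp (g := fun i : Fin n => (i : ℕ)) Fin.val_injective
  have h3 := h2.integral_fun_prod_eq_prod_integral (fun i => by
    exact (hm.comp (measurable_pi_apply (i : ℕ))).aestronglyMeasurable)
  have h4 : ∀ i : ℕ, ∫ y : ℕ → E, Complex.exp ((g (y i) : ℂ) * Complex.I)
      ∂(Measure.infinitePi fun _ : ℕ => ρ) = ∫ e, Complex.exp ((g e : ℂ) * Complex.I) ∂ρ := by
    intro i
    have h5 : (Measure.infinitePi fun _ : ℕ => ρ).map (fun y : ℕ → E => y i) = ρ :=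
      Measure.infinitePi_map_eval _ i
    have h6 := integral_map (μ := Measure.infinitePi fun _ : ℕ => ρ)
      (φ := fun y : ℕ → E => y i) (measurable_pi_apply i).aemeasurable
      (f := fun e => Complex.exp ((g e : ℂ) * Complex.I)) (by
        exact hm.aestronglyMeasurable)
    rw [h5] at h6
    exact h6.symm
  have h7 : ∀ y : ℕ → E, Complex.exp (((∑ i ∈ Finset.range n, g (y i) : ℝ) : ℂ) * Complex.I) =
      ∏ i : Fin n, Complex.exp ((g (y (i : ℕ)) : ℂ) * Complex.I) := by
    intro y
    rw [Finset.sum_range]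
    push_cast
    rw [Finset.sum_mul, Complex.exp_sum]
  simp only [h7]
  rw [h3]
  simp only [h4, Finset.prod_const, Finset.card_univ, Fintype.card_fin]

theorem cell_char (ρ : Measure E) [IsProbabilityMeasure ρ] {g : E → ℝ} (hg : Measurable g) :
    ∫ x, Complex.exp ((cs g x : ℂ) * Complex.I) ∂(cellM ρ) =
      Complex.exp (∫ e, (Complex.exp ((g e : ℂ) * Complex.I) - 1) ∂ρ) := by
  have hm : Measurable (fun e : E => Complex.exp ((g e : ℂ) * Complex.I)) := by fun_prop
  have hint : Integrable (fun e : E => Complex.exp ((g e : ℂ) * Complex.I)) ρ :=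
    Integrable.of_bound hm.aestronglyMeasurable 1 (Eventually.of_forall fun e => (norm_exp_I _).le)
  have hm2 : Measurable (fun x : Cell E => Complex.exp ((cs g x : ℂ) * Complex.I)) := by
    have := measurable_cs hg
    fun_prop
  unfold cellM
  rw [integral_prod]
  · simp only [cs]
    simp only [marks_char ρ hg]
    rw [integral_poissonMeasure, integral_sub hint (integrable_const _)]
    simp only [integral_const, probReal_univ, one_smul]
    set φ := ∫ e, Complex.exp ((g e : ℂ) * Complex.I) ∂ρ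
    have h1 : ∀ n : ℕ, (Real.exp (-(1 : ℝ≥0)) * ((1 : ℝ≥0) : ℝ) ^ n / (n.factorial : ℝ)) • φ ^ n =
        Complex.exp (-1) * (φ ^ n / n.factorial) := by
      intro n
      simp only [NNReal.coe_one, one_pow, mul_one, Complex.real_smul]
      push_cast
      ring
    simp only [h1]
    rw [tsum_mul_left, (NormedSpace.expSeries_div_hasSum_exp φ).tsum_eq, ← Complex.exp_eq_exp_ℂ,
      ← Complex.exp_add]
    congr 1
    ring
  · exact Integrable.of_bound hm2.aestronglyMeasurable 1
      (Eventually.of_forall fun e => (norm_exp_I _).le)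

theorem finite_char (ρ : Measure E) [IsProbabilityMeasure ρ] {G : ℤ → E → ℝ}
    (hG : ∀ m, Measurable (G m)) (s : Finset ℤ) :
    ∫ ω, Complex.exp (((∑ m ∈ s, cs (G m) (ω m) : ℝ) : ℂ) * Complex.I) ∂(PP ρ) =
      Complex.exp (∑ m ∈ s, ∫ e, (Complex.exp ((G m e : ℂ) * Complex.I) - 1) ∂ρ) := by
  have hm : ∀ m, Measurable (fun x : Cell E => Complex.exp ((cs (G m) x : ℂ) * Complex.I)) := by
    intro m
    have := measurable_cs (hG m)
    fun_prop
  have h1 : iIndepFun (fun (m : ℤ) (ω : Om E) => Complex.exp ((cs (G m) (ω m) : ℂ) * Complex.I))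
      (PP ρ) :=
    iIndepFun_infinitePi (X := fun (m : ℤ) (x : Cell E) =>
      Complex.exp ((cs (G m) x : ℂ) * Complex.I)) hm
  have h2 := h1.precomp (g := fun i : s => (i : ℤ)) Subtype.val_injective
  have h3 := h2.integral_fun_prod_eq_prod_integral (fun i => by
    exact ((hm (i : ℤ)).comp (measurable_pi_apply (i : ℤ))).aestronglyMeasurable)
  have h4 : ∀ i : ℤ, ∫ ω : Om E, Complex.exp ((cs (G i) (ω i) : ℂ) * Complex.I) ∂(PP ρ) =
      Complex.exp (∫ e, (Complex.exp ((G i e : ℂ) * Complex.I) - 1) ∂ρ) := by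
    intro i
    rw [← cell_char ρ (hG i)]
    have h5 : (PP ρ).map (fun y : Om E => y i) = cellM ρ :=
      Measure.infinitePi_map_eval _ i
    have h6 := integral_map (μ := PP ρ)
      (φ := fun y : Om E => y i) (measurable_pi_apply i).aemeasurable
      (f := fun x => Complex.exp ((cs (G i) x : ℂ) * Complex.I)) (by
        exact (hm i).aestronglyMeasurable)
    rw [h5] at h6
    exact h6.symm
  have h7 : ∀ ω : Om E, Complex.exp (((∑ m ∈ s, cs (G m) (ω m) : ℝ) : ℂ) * Complex.I) =
      ∏ i : s, Complex.exp ((cs (G i) (ω i) : ℂ) * Complex.I) := by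
    intro ω
    rw [Finset.prod_coe_sort s (fun i => Complex.exp ((cs (G i) (ω i) : ℂ) * Complex.I))]
    push_cast
    rw [Finset.sum_mul, Complex.exp_sum]
  simp only [h7]
  rw [h3]
  simp only [h4]
  rw [Finset.prod_coe_sort s (fun i =>
    Complex.exp (∫ e, (Complex.exp ((G i e : ℂ) * Complex.I) - 1) ∂ρ)), ← Complex.exp_sum]

/-- The characteristic function of a sum over all the cells. -/
theorem total_char (ρ : Measure E) [IsProbabilityMeasure ρ] {G : ℤ → E → ℝ}
    (hG : ∀ m, Measurable (G m)) {Y : Om E → ℝ}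
    (hY : ∀ᵐ ω ∂(PP ρ), HasSum (fun m => cs (G m) (ω m)) (Y ω)) {ψ : ℂ}
    (hψ : HasSum (fun m => ∫ e, (Complex.exp ((G m e : ℂ) * Complex.I) - 1) ∂ρ) ψ) :
    ∫ ω, Complex.exp ((Y ω : ℂ) * Complex.I) ∂(PP ρ) = Complex.exp ψ := by
  have h1 : Tendsto (fun s : Finset ℤ =>
      ∫ ω, Complex.exp (((∑ m ∈ s, cs (G m) (ω m) : ℝ) : ℂ) * Complex.I) ∂(PP ρ)) atTop
      (𝓝 (∫ ω, Complex.exp ((Y ω : ℂ) * Complex.I) ∂(PP ρ))) := by
    refine tendsto_integral_filter_of_dominated_convergence (fun _ => (1 : ℝ)) ?_ ?_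
      (integrable_const _) ?_
    · refine Eventually.of_forall fun s => ?_
      have : Measurable (fun ω : Om E => ∑ m ∈ s, cs (G m) (ω m)) :=
        Finset.measurable_fun_sum _ fun m _ => (measurable_cs (hG m)).comp (measurable_pi_apply m)
      exact (by fun_prop : Measurable (fun ω : Om E =>
        Complex.exp (((∑ m ∈ s, cs (G m) (ω m) : ℝ) : ℂ) * Complex.I))).aestronglyMeasurable
    · exact Eventually.of_forall fun s => Eventually.of_forall fun ω => (norm_exp_I _).le
    · filter_upwards [hY] with ω hω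
      have hc : Continuous (fun x : ℝ => Complex.exp ((x : ℂ) * Complex.I)) := by fun_prop
      exact (hc.tendsto _).comp hω
  simp only [finite_char ρ hG] at h1
  have h2 : Tendsto (fun s : Finset ℤ => Complex.exp (∑ m ∈ s,
      ∫ e, (Complex.exp ((G m e : ℂ) * Complex.I) - 1) ∂ρ)) atTop (𝓝 (Complex.exp ψ)) :=
    (Complex.continuous_exp.tendsto _).comp hψ
  exact tendsto_nhds_unique h1 h2

end

end Pool.Agent.Q30.LV
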