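import Pool.Agent.Q30.LV.Proc

/-!
# Covering the range of the process
-/

set_option autoImplicit false

open MeasureTheory Filter Topology Set ProbabilityTheory
open scoped ENNReal NNReal

namespace Pool.Agent.Q30.LV

noncomputable section

/-- the real weighted number of points -/
def Zr (ω : W) : ℝ := ∑' m : ℤ, ((ω m).1 : ℝ) * ((|(m:ℝ)| + 1) ^ 2)⁻¹

theorem Zr_nonneg (ω : W) : 0 ≤ Zr ω := tsum_nonneg fun m => by positivity

/-- the big cells -/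
def big (M : ℕ) : Finset ℤ := Finset.Ioo (-(M : ℤ)) M

theorem not_big {M : ℕ} {m : ℤ} (h : m ∉ big M) : (M : ℝ) ≤ |(m : ℝ)| := by
  unfold big at h
  rw [Finset.mem_Ioo, not_and_or, not_lt, not_lt] at h
  rcases h with h | h
  · have : (m : ℝ) ≤ -(M : ℝ) := by exact_mod_cast h
    rw [abs_of_nonpos (by linarith [(Nat.cast_nonneg M : (0:ℝ) ≤ M)])]
    linarith
  · have : (M : ℝ) ≤ (m : ℝ) := by exact_mod_cast h
    exact this.trans (le_abs_self _)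

theorem mem_big {M : ℕ} {m : ℤ} (h : m ∈ big M) : |(m : ℝ)| + 1 ≤ M := by
  unfold big at h
  rw [Finset.mem_Ioo] at h
  have h1 : |m| + 1 ≤ (M : ℤ) := by
    have := abs_lt.2 h
    omega
  exact_mod_cast h1

/-- the points of the big cells -/
def pts (ω : W) (M : ℕ) : Finset (Σ _ : ℤ, ℕ) := (big M).sigma fun m => Finset.range (ω m).1

theorem card_pts {ω : W} (h : ω ∈ Gd) (M : ℕ) : ((pts ω M).card : ℝ) ≤ (M : ℝ) ^ 2 * Zr ω := by
  have hs := summable_N h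
  unfold pts
  rw [Finset.card_sigma]
  push_cast
  simp only [Finset.card_range]
  have h1 : ∀ m ∈ big M, ((ω m).1 : ℝ) ≤
      (M : ℝ) ^ 2 * (((ω m).1 : ℝ) * ((|(m:ℝ)| + 1) ^ 2)⁻¹) := by
    intro m hm
    have h2 := mem_big hm
    have h3 : 0 < |(m:ℝ)| + 1 := by positivity
    have h4 : (1 : ℝ) ≤ (M : ℝ) ^ 2 * ((|(m:ℝ)| + 1) ^ 2)⁻¹ := by
      rw [← div_eq_mul_inv, le_div_iff₀ (by positivity), one_mul]
      gcongr
    calc ((ω m).1 : ℝ) = ((ω m).1 : ℝ) * 1 := (mul_one _).symm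
      _ ≤ ((ω m).1 : ℝ) * ((M : ℝ) ^ 2 * ((|(m:ℝ)| + 1) ^ 2)⁻¹) := by gcongr
      _ = _ := by ring
  refine (Finset.sum_le_sum h1).trans ?_
  rw [← Finset.mul_sum]
  gcongr
  exact hs.sum_le_tsum _ (fun m _ => by positivity)

/-- the active points -/
def act (ω : W) (M : ℕ) (t : ℝ) : Finset (Σ _ : ℤ, ℕ) := by
  classical
  exact (pts ω M).filter fun q => ((ω q.1).2 q.2).1 ∈ Ioc 0 t

theorem act_mono (ω : W) (M : ℕ) {s t : ℝ} (h : s ≤ t) : act ω M s ⊆ act ω M t := by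
  classical
  unfold act
  intro q hq
  rw [Finset.mem_filter] at hq ⊢
  exact ⟨hq.1, hq.2.1, hq.2.2.trans h⟩

theorem act_sub (ω : W) (M : ℕ) (t : ℝ) : act ω M t ⊆ pts ω M := by
  classical
  unfold act
  exact Finset.filter_subset _ _

/-- the big part of the process -/
theorem big_part (ω : W) (M : ℕ) (t : ℝ) :
    ∑ m ∈ big M, cs (xj (ind t) m) (ω m) =
      ∑ q ∈ act ω M t, jmp ((ω q.1).2 q.2).1 (((ω q.1).2 q.2).2 + (q.1 : ℤ)) := by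
  classical
  unfold act pts
  rw [Finset.sum_filter, Finset.sum_sigma]
  refine Finset.sum_congr rfl fun m _ => ?_
  unfold cs xj
  refine Finset.sum_congr rfl fun i _ => ?_
  unfold ind
  simp only
  split_ifs with hh
  · rw [indicator_of_mem hh, one_mul]
  · rw [indicator_of_notMem hh, zero_mul]

theorem small_part {ω : W} (h : ω ∈ Gd) {M : ℕ} (hM : 2 ≤ M) {t : ℝ} (ht : t ≤ 1) :
    |X t ω - ∑ m ∈ big M, cs (xj (ind t) m) (ω m)| ≤ KK 1 * Zr ω * ((M : ℝ) ^ 13)⁻¹ := by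
  have hM' : (2 : ℝ) ≤ M := by exact_mod_cast hM
  have hK := KK_pos 1
  have hs := summable_N h
  have h1 := X_hasSum h t
  have h2 := h1.summable.sum_add_tsum_compl (s := big M)
  rw [h1.tsum_eq] at h2
  rw [← h2, add_sub_cancel_left]
  have h3 : ∀ m : ((big M : Finset ℤ) : Set ℤ)ᶜ.Elem, ‖cs (xj (ind t) m) (ω m)‖ ≤
      KK 1 * ((M : ℝ) ^ 13)⁻¹ * (((ω (m : ℤ)).1 : ℝ) * ((|((m : ℤ):ℝ)| + 1) ^ 2)⁻¹) := by
    intro m
    have hm : (m : ℤ) ∉ big M := fun hh => m.2 (by exact_mod_cast hh)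
    have hm1 := not_big hm
    have hm2 : (m : ℤ) ≠ 0 := by
      intro h0
      rw [h0] at hm1
      simp at hm1
      omega
    have hm3 : (m : ℤ) ≠ -1 := by
      intro h0
      rw [h0] at hm1
      simp at hm1
      omega
    have hsup : ∀ u, u ∉ Ioc (0:ℝ) 1 → ind t u = 0 := fun u hu =>
      ind_zero t u fun hh => hu ⟨hh.1, hh.2.trans ht⟩
    have h4 := cs_bound h (f := ind t) (M := 1) (T := 1) (ind_bd t) hsup hm2 hm3
    rw [Real.norm_eq_abs]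
    refine (cs_abs_le _ _).trans (h4.trans ?_)
    have h5 : ((|((m:ℤ):ℝ)| + 1) ^ 15)⁻¹ ≤ ((M : ℝ) ^ 13)⁻¹ * ((|((m:ℤ):ℝ)| + 1) ^ 2)⁻¹ := by
      rw [← mul_inv]
      refine inv_anti₀ (by positivity) ?_
      calc (M : ℝ) ^ 13 * (|((m:ℤ):ℝ)| + 1) ^ 2 ≤ (|((m:ℤ):ℝ)| + 1) ^ 13 * (|((m:ℤ):ℝ)| + 1) ^ 2 := by
            gcongr
            linarith
        _ = _ := by ring
    rw [one_mul]
    calc KK 1 * (((ω (m:ℤ)).1 : ℝ) * ((|((m:ℤ):ℝ)| + 1) ^ 15)⁻¹) ≤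
        KK 1 * (((ω (m:ℤ)).1 : ℝ) * (((M : ℝ) ^ 13)⁻¹ * ((|((m:ℤ):ℝ)| + 1) ^ 2)⁻¹)) := by gcongr
      _ = _ := by ring
  have h4 : Summable (fun m : ((big M : Finset ℤ) : Set ℤ)ᶜ.Elem =>
      KK 1 * ((M : ℝ) ^ 13)⁻¹ * (((ω (m : ℤ)).1 : ℝ) * ((|((m : ℤ):ℝ)| + 1) ^ 2)⁻¹)) :=
    (hs.mul_left _).subtype _
  have h5 := tsum_of_norm_bounded h4.hasSum h3
  rw [Real.norm_eq_abs] at h5
  refine h5.trans ?_
  rw [tsum_mul_left]
  have h6 : ∑' m : ((big M : Finset ℤ) : Set ℤ)ᶜ.Elem,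
      (((ω (m : ℤ)).1 : ℝ) * ((|((m : ℤ):ℝ)| + 1) ^ 2)⁻¹) ≤ Zr ω :=
    Summable.tsum_subtype_le (fun m : ℤ => ((ω m).1 : ℝ) * ((|(m:ℝ)| + 1) ^ 2)⁻¹)
      (((big M : Finset ℤ) : Set ℤ)ᶜ) (fun m => by positivity) hs
  calc _ ≤ KK 1 * ((M : ℝ) ^ 13)⁻¹ * Zr ω := by gcongr
    _ = _ := by ring

theorem cover {ω : W} (h : ω ∈ Gd) {M : ℕ} (hM : 2 ≤ M) :
    ∃ (B : ℕ) (G : ℕ → ℝ), (B : ℝ) ≤ (M : ℝ) ^ 2 * Zr ω ∧
      ∀ t ≤ 1, ∃ c ≤ B, |X t ω - G c| ≤ KK 1 * Zr ω * ((M : ℝ) ^ 13)⁻¹ := by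
  classical
  set g : ℝ → ℝ := fun t => ∑ m ∈ big M, cs (xj (ind t) m) (ω m) with hg
  refine ⟨(pts ω M).card, fun c => if hc : ∃ t, (act ω M t).card = c then g hc.choose else 0,
    card_pts h M, fun t ht => ⟨(act ω M t).card, Finset.card_le_card (act_sub ω M t), ?_⟩⟩
  have hc : ∃ s, (act ω M s).card = (act ω M t).card := ⟨t, rfl⟩
  simp only
  rw [dif_pos hc]
  have h1 := hc.choose_spec
  have h2 : act ω M hc.choose = act ω M t := by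
    rcases le_total hc.choose t with h3 | h3
    · exact Finset.eq_of_subset_of_card_le (act_mono ω M h3) h1.symm.le
    · exact (Finset.eq_of_subset_of_card_le (act_mono ω M h3) h1.le).symm
  have h3 : g hc.choose = g t := by
    simp only [hg, big_part]
    rw [h2]
  rw [h3]
  exact small_part h hM ht

end

end Pool.Agent.Q30.LV
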