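import Mathlib

/-!
# Fourier decay and the measure of short intervals
-/

set_option autoImplicit false

open MeasureTheory Filter Topology Set

namespace Pool.Agent.Q30.LV

noncomputable section

/-- the exponential sum -/
def S (n : ℕ) (x : ℝ) : ℂ := ∑ j ∈ Finset.range n, Complex.exp (((j * x : ℝ) : ℂ) * Complex.I)

theorem S_lower {n : ℕ} (hn : 1 ≤ n) {x : ℝ} (hx : |x| ≤ 1 / n) : (n : ℝ) ^ 2 / 4 ≤ ‖S n x‖ ^ 2 := by
  have hn' : (0 : ℝ) < n := by exact_mod_cast hn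
  have h1 : (n : ℝ) / 2 ≤ (S n x).re := by
    unfold S
    rw [Complex.re_sum]
    have h2 : ∀ j ∈ Finset.range n, (1 / 2 : ℝ) ≤
        (Complex.exp (((j * x : ℝ) : ℂ) * Complex.I)).re := by
      intro j hj
      rw [Complex.exp_ofReal_mul_I_re]
      have hj' : (j : ℝ) ≤ n := by exact_mod_cast (Finset.mem_range.1 hj).le
      have h3 : |(j : ℝ) * x| ≤ 1 := by
        rw [abs_mul, abs_of_nonneg (by positivity : (0:ℝ) ≤ j)]
        calc (j : ℝ) * |x| ≤ n * (1 / n) := by gcongr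
          _ = 1 := by field_simp
      have h4 := Real.one_sub_sq_div_two_le_cos (x := (j : ℝ) * x)
      have h5 : ((j : ℝ) * x) ^ 2 ≤ 1 := by rw [← sq_abs]; nlinarith [abs_nonneg ((j : ℝ) * x)]
      linarith
    calc (n : ℝ) / 2 = ∑ _j ∈ Finset.range n, (1 / 2 : ℝ) := by
          rw [Finset.sum_const, Finset.card_range, nsmul_eq_mul]; ring
      _ ≤ _ := Finset.sum_le_sum h2
  have h2 := Complex.re_le_norm (S n x)
  nlinarith

theorem S_sq (n : ℕ) (x : ℝ) : ‖S n x‖ ^ 2 = ∑ j ∈ Finset.range n, ∑ l ∈ Finset.range n,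
    (Complex.exp (((((j : ℝ) - l) * x : ℝ) : ℂ) * Complex.I)).re := by
  have h1 : ((‖S n x‖ ^ 2 : ℝ) : ℂ) = S n x * (starRingEnd ℂ) (S n x) := by
    rw [Complex.mul_conj, Complex.normSq_eq_norm_sq]
  have h2 : S n x * (starRingEnd ℂ) (S n x) = ∑ j ∈ Finset.range n, ∑ l ∈ Finset.range n,
      Complex.exp (((((j : ℝ) - l) * x : ℝ) : ℂ) * Complex.I) := by
    unfold S
    rw [map_sum, Finset.sum_mul_sum]
    refine Finset.sum_congr rfl fun j _ => Finset.sum_congr rfl fun l _ => ?_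
    rw [← Complex.exp_conj, ← Complex.exp_add]
    congr 1
    simp only [map_mul, Complex.conj_ofReal, Complex.conj_I]
    push_cast
    ring
  have h3 := congrArg Complex.re (h1.trans h2)
  rw [Complex.ofReal_re] at h3
  rw [h3, Complex.re_sum]
  exact Finset.sum_congr rfl fun j _ => by rw [Complex.re_sum]

theorem count_near (n K : ℕ) (j : ℕ) :
    ((Finset.range n).filter (fun l : ℕ => |(j : ℤ) - l| < K)).card ≤ 2 * K := by
  have h1 : ((Finset.range n).filter (fun l : ℕ => |(j : ℤ) - l| < K)).card ≤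
      (Finset.Ioo ((j : ℤ) - K) (j + K)).card := by
    refine Finset.card_le_card_of_injOn (fun l : ℕ => (l : ℤ)) ?_ ?_
    · intro l hl
      simp only [Finset.coe_filter, Finset.mem_range, Set.mem_ofPred_eq] at hl
      have := abs_lt.1 hl.2
      simp only [Finset.coe_Ioo, mem_Ioo]
      omega
    · intro a _ b _ h
      have h' : (a : ℤ) = (b : ℤ) := h
      exact_mod_cast h'
  refine h1.trans ?_
  rw [Int.card_Ioo]
  omega

variable {μ : Measure (ℝ × ℝ)}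

theorem coef_bound {C : ℝ}
    (h : ∀ ξ : ℝ × ℝ, 1 ≤ ‖ξ‖ →
      ‖∫ p, Complex.exp (((ξ.1 * p.1 + ξ.2 * p.2 : ℝ) : ℂ) * Complex.I) ∂μ‖ ≤
        C * ‖ξ‖ ^ (-(2 / 3 : ℝ) / 2)) (a d : ℝ) (k : ℕ) (hk : 1 ≤ k) (hd : (k : ℝ) ^ 3 ≤ |d|) :
    ‖∫ p : ℝ × ℝ, Complex.exp (((d * (p.2 - a) : ℝ) : ℂ) * Complex.I) ∂μ‖ ≤ |C| / k := by
  have hk' : (1 : ℝ) ≤ k := by exact_mod_cast hk
  have h1 := h (0, d)
  have hn : ‖((0 : ℝ), d)‖ = |d| := by
    rw [Prod.norm_def]; simp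
  have hd1 : 1 ≤ |d| := le_trans (one_le_pow₀ hk') hd
  rw [hn] at h1
  have h2 := h1 hd1
  simp only [zero_mul, zero_add] at h2
  have h3 : ∀ p : ℝ × ℝ, Complex.exp (((d * (p.2 - a) : ℝ) : ℂ) * Complex.I) =
      Complex.exp (((-(d * a) : ℝ) : ℂ) * Complex.I) *
        Complex.exp (((d * p.2 : ℝ) : ℂ) * Complex.I) := by
    intro p
    rw [← Complex.exp_add]
    congr 1
    push_cast
    ring
  simp only [h3]
  rw [integral_const_mul, norm_mul, Complex.norm_exp_ofReal_mul_I, one_mul]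
  refine h2.trans ?_
  have h4 : |d| ^ (-(2 / 3 : ℝ) / 2) ≤ (k : ℝ)⁻¹ := by
    have h5 : (-(2 / 3 : ℝ) / 2) = -(1 / 3 : ℝ) := by norm_num
    rw [h5, Real.rpow_neg (by positivity)]
    refine inv_anti₀ (by positivity) ?_
    have h6 : (k : ℝ) = ((k : ℝ) ^ 3) ^ (1 / 3 : ℝ) := by
      rw [← Real.rpow_natCast, ← Real.rpow_mul (by positivity)]
      norm_num
    rw [h6]
    exact Real.rpow_le_rpow (by positivity) hd (by norm_num)
  calc C * |d| ^ (-(2 / 3 : ℝ) / 2) ≤ |C| * |d| ^ (-(2 / 3 : ℝ) / 2) := by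
        gcongr
        exact le_abs_self C
    _ ≤ |C| * (k : ℝ)⁻¹ := by gcongr
    _ = |C| / k := by rw [div_eq_mul_inv]

variable [IsProbabilityMeasure μ]

theorem coef_one (a d : ℝ) :
    ‖∫ p : ℝ × ℝ, Complex.exp (((d * (p.2 - a) : ℝ) : ℂ) * Complex.I) ∂μ‖ ≤ 1 := by
  refine (norm_integral_le_integral_norm _).trans ?_
  simp only [Complex.norm_exp_ofReal_mul_I]
  simp

theorem interval_bound {C : ℝ}
    (h : ∀ ξ : ℝ × ℝ, 1 ≤ ‖ξ‖ →
      ‖∫ p, Complex.exp (((ξ.1 * p.1 + ξ.2 * p.2 : ℝ) : ℂ) * Complex.I) ∂μ‖ ≤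
        C * ‖ξ‖ ^ (-(2 / 3 : ℝ) / 2)) (a : ℝ) (k : ℕ) (hk : 1 ≤ k) :
    μ.real {p : ℝ × ℝ | |p.2 - a| ≤ 1 / (k : ℝ) ^ 4} ≤ (8 + 4 * |C|) / k := by
  have hk' : (1 : ℝ) ≤ k := by exact_mod_cast hk
  have hk0 : (0 : ℝ) < k := by linarith
  set n : ℕ := k ^ 4 with hn
  have hn1 : 1 ≤ n := Nat.one_le_pow _ _ hk
  have hnk : (n : ℝ) = (k : ℝ) ^ 4 := by rw [hn]; push_cast; ring
  set A : Set (ℝ × ℝ) := {p : ℝ × ℝ | |p.2 - a| ≤ 1 / (k : ℝ) ^ 4} with hA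
  have hAm : MeasurableSet A := measurableSet_le (by fun_prop) measurable_const
  have hSc : Continuous (fun p : ℝ × ℝ => ‖S n (p.2 - a)‖ ^ 2) := by
    unfold S; fun_prop
  have hSb : ∀ p : ℝ × ℝ, ‖(‖S n (p.2 - a)‖ ^ 2 : ℝ)‖ ≤ (n : ℝ) ^ 2 := by
    intro p
    rw [Real.norm_of_nonneg (by positivity)]
    have : ‖S n (p.2 - a)‖ ≤ n := by
      unfold S
      refine (norm_sum_le _ _).trans ?_
      simp only [Complex.norm_exp_ofReal_mul_I]
      simp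
    gcongr
  have hSi : Integrable (fun p : ℝ × ℝ => ‖S n (p.2 - a)‖ ^ 2) μ :=
    Integrable.of_bound hSc.aestronglyMeasurable _ (Eventually.of_forall hSb)
  -- lower bound
  have h1 : μ.real A * ((n : ℝ) ^ 2 / 4) ≤ ∫ p, ‖S n (p.2 - a)‖ ^ 2 ∂μ := by
    calc μ.real A * ((n : ℝ) ^ 2 / 4) = ∫ p in A, ((n : ℝ) ^ 2 / 4) ∂μ := by
          rw [setIntegral_const, smul_eq_mul]
      _ ≤ ∫ p in A, ‖S n (p.2 - a)‖ ^ 2 ∂μ := by
          refine setIntegral_mono_on (integrable_const _).integrableOn hSi.integrableOn hAm ?_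
          intro p hp
          refine S_lower hn1 ?_
          rw [hnk]
          exact hp
      _ ≤ _ := setIntegral_le_integral hSi (Eventually.of_forall fun p => by positivity)
  -- upper bound
  have hei : ∀ d : ℝ, Integrable (fun p : ℝ × ℝ =>
      Complex.exp (((d * (p.2 - a) : ℝ) : ℂ) * Complex.I)) μ := by
    intro d
    refine Integrable.of_bound (Continuous.aestronglyMeasurable (by fun_prop)) 1
      (Eventually.of_forall fun p => by rw [Complex.norm_exp_ofReal_mul_I])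
  have heir : ∀ d : ℝ, Integrable (fun p : ℝ × ℝ =>
      (Complex.exp (((d * (p.2 - a) : ℝ) : ℂ) * Complex.I)).re) μ := fun d => (hei d).re
  have h2 : ∫ p, ‖S n (p.2 - a)‖ ^ 2 ∂μ ≤ ∑ j ∈ Finset.range n, ∑ l ∈ Finset.range n,
      ‖∫ p : ℝ × ℝ, Complex.exp (((((j : ℝ) - l) * (p.2 - a) : ℝ) : ℂ) * Complex.I) ∂μ‖ := by
    simp only [S_sq]
    rw [integral_finsetSum _ (fun (j : ℕ) _ => integrable_finsetSum _ fun (l : ℕ) _ => heir ((j : ℝ) - l))]
    refine Finset.sum_le_sum fun j _ => ?_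
    rw [integral_finsetSum _ (fun (l : ℕ) _ => heir ((j : ℝ) - l))]
    refine Finset.sum_le_sum fun l _ => ?_
    have h3 := integral_re (hei ((j : ℝ) - l))
    have h4 : ∫ p : ℝ × ℝ, (Complex.exp (((((j : ℝ) - l) * (p.2 - a) : ℝ) : ℂ) * Complex.I)).re ∂μ
        = (∫ p : ℝ × ℝ, Complex.exp (((((j : ℝ) - l) * (p.2 - a) : ℝ) : ℂ) * Complex.I) ∂μ).re := h3
    rw [h4]
    exact Complex.re_le_norm _
  have h3 : ∀ j ∈ Finset.range n, ∑ l ∈ Finset.range n,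
      ‖∫ p : ℝ × ℝ, Complex.exp (((((j : ℝ) - l) * (p.2 - a) : ℝ) : ℂ) * Complex.I) ∂μ‖ ≤
      2 * (k : ℝ) ^ 3 + n * (|C| / k) := by
    intro j _
    have h4 : ∀ l ∈ Finset.range n,
        ‖∫ p : ℝ × ℝ, Complex.exp (((((j : ℝ) - l) * (p.2 - a) : ℝ) : ℂ) * Complex.I) ∂μ‖ ≤
        (if |(j : ℤ) - l| < ((k ^ 3 : ℕ) : ℤ) then (1 : ℝ) else 0) + |C| / k := by
      intro l _
      have hCk : 0 ≤ |C| / k := by positivity
      split_ifs with h5
      · linarith [coef_one (μ := μ) a ((j : ℝ) - l)]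
      · push Not at h5
        rw [zero_add]
        refine coef_bound h a _ k hk ?_
        have h6 : (((k ^ 3 : ℕ) : ℤ) : ℝ) ≤ ((|(j : ℤ) - l| : ℤ) : ℝ) := by exact_mod_cast h5
        push_cast at h6
        exact h6
    refine (Finset.sum_le_sum h4).trans ?_
    rw [Finset.sum_add_distrib, Finset.sum_const, Finset.card_range, nsmul_eq_mul,
      ← Finset.sum_filter, Finset.sum_const, nsmul_eq_mul, mul_one]
    have h5 := count_near n (k ^ 3) j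
    have h6 : (((Finset.range n).filter (fun l : ℕ => |(j : ℤ) - l| < ((k ^ 3 : ℕ) : ℤ))).card : ℝ) ≤
        2 * (k : ℝ) ^ 3 := by exact_mod_cast h5
    linarith
  have h4 := (h1.trans h2).trans (Finset.sum_le_sum h3)
  rw [Finset.sum_const, Finset.card_range, nsmul_eq_mul, hnk] at h4
  rw [le_div_iff₀ hk0]
  have h5 : μ.real A * (((k : ℝ) ^ 4) ^ 2 / 4) * k ≤
      (k : ℝ) ^ 4 * (2 * (k : ℝ) ^ 3 + (k : ℝ) ^ 4 * (|C| / k)) * k := by gcongr
  have h6 : (k : ℝ) ^ 4 * (2 * (k : ℝ) ^ 3 + (k : ℝ) ^ 4 * (|C| / k)) * k =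
      ((k : ℝ) ^ 4) ^ 2 / 4 * (8 + 4 * |C|) := by
    field_simp
    ring
  rw [h6] at h5
  have h7 : 0 < ((k : ℝ) ^ 4) ^ 2 / 4 := by positivity
  have h8 : ((k : ℝ) ^ 4) ^ 2 / 4 * (μ.real A * k) ≤ ((k : ℝ) ^ 4) ^ 2 / 4 * (8 + 4 * |C|) := by
    calc _ = μ.real A * (((k : ℝ) ^ 4) ^ 2 / 4) * k := by ring
      _ ≤ _ := h5
  exact le_of_mul_le_mul_left h8 h7

end

end Pool.Agent.Q30.LV
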