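import Mathlib

/-!
# The one-dimensional integral: `∫ (exp (i a (κ γ)^(-15)) - 1) dγ = - |a|^(1/15) C / κ`
-/

set_option autoImplicit false

open MeasureTheory Filter Topology Set

namespace Pool.Agent.Q30.LV

noncomputable section

/-- `exp (i x) - 1` -/
def e1 (x : ℝ) : ℂ := Complex.exp ((x : ℂ) * Complex.I) - 1

theorem measurable_e1 : Measurable e1 := by unfold e1; fun_prop

theorem e1_le (x : ℝ) : ‖e1 x‖ ≤ |x| := by
  have := Real.norm_exp_I_mul_ofReal_sub_one_le (x := x)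
  unfold e1
  rw [mul_comm]
  simpa [Real.norm_eq_abs] using this

theorem e1_le_two (x : ℝ) : ‖e1 x‖ ≤ 2 := by
  unfold e1
  refine (norm_sub_le _ _).trans ?_
  rw [Complex.norm_exp_ofReal_mul_I]
  norm_num

/-- the basic function -/
def hs (x : ℝ) : ℂ := e1 ((x ^ 15)⁻¹)

theorem measurable_hs : Measurable hs := measurable_e1.comp (by fun_prop)

theorem hs_le (x : ℝ) : ‖hs x‖ ≤ 4 * (1 + x ^ 2)⁻¹ := by
  have hp : 0 < 1 + x ^ 2 := by positivity
  rcases le_or_gt |x| 1 with h | h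
  · refine (e1_le_two _).trans ?_
    have h1 : x ^ 2 ≤ 1 := by rw [← sq_abs]; nlinarith [abs_nonneg x]
    rw [← div_eq_mul_inv, le_div_iff₀ hp]
    linarith
  · refine (e1_le _).trans ?_
    rw [abs_inv, abs_pow]
    have h1 : x ^ 2 ≤ |x| ^ 15 := by
      rw [← sq_abs]
      exact pow_le_pow_right₀ h.le (by norm_num)
    have h2 : 1 < x ^ 2 := by rw [← sq_abs]; nlinarith
    rw [← div_eq_mul_inv, le_div_iff₀ hp, inv_mul_eq_div, div_le_iff₀ (by positivity)]
    nlinarith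

theorem integrable_hs : Integrable hs := by
  refine Integrable.mono' (integrable_inv_one_add_sq.const_mul 4)
    measurable_hs.aestronglyMeasurable (Eventually.of_forall hs_le)

/-- the constant -/
def CC : ℝ := -(∫ x, hs x).re

theorem hs_neg (x : ℝ) : hs (-x) = (starRingEnd ℂ) (hs x) := by
  unfold hs e1
  have : ((-x) ^ 15)⁻¹ = -(x ^ 15)⁻¹ := by
    rw [Odd.neg_pow (by decide), inv_neg]
  rw [this, map_sub, ← Complex.exp_conj]
  simp

theorem integral_hs : ∫ x, hs x = -(CC : ℂ) := by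
  have h1 : (starRingEnd ℂ) (∫ x, hs x) = ∫ x, hs x := by
    rw [← integral_conj]
    simp only [← hs_neg]
    exact integral_neg_eq_self (fun x => hs x) volume
  have h2 := Complex.conj_eq_iff_real.1 h1
  obtain ⟨r, hr⟩ := h2
  unfold CC
  rw [hr]
  simp

theorem CC_pos : 0 < CC := by
  unfold CC
  have h1 : (∫ x, hs x).re = ∫ x, (hs x).re := (integral_re integrable_hs).symm
  rw [h1, ← integral_neg]
  have hre : ∀ x, -(hs x).re = 1 - Real.cos ((x ^ 15)⁻¹) := by
    intro x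
    unfold hs e1
    rw [Complex.sub_re, Complex.exp_ofReal_mul_I_re, Complex.one_re]
    ring
  rw [integral_pos_iff_support_of_nonneg]
  · have hsub : Ioo (1 : ℝ) 2 ⊆ Function.support (fun x => -(hs x).re) := by
      intro x hx
      rw [Function.mem_support, hre]
      have h3 : 0 < (x ^ 15)⁻¹ := by have := hx.1; positivity
      have h4 : (x ^ 15)⁻¹ < 1 := inv_lt_one_of_one_lt₀ (one_lt_pow₀ hx.1 (by norm_num))
      have h6 : Real.cos ((x ^ 15)⁻¹) < 1 := by
        rw [← Real.cos_zero]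
        exact Real.cos_lt_cos_of_nonneg_of_le_pi le_rfl (by linarith [Real.pi_gt_three]) h3
      linarith
    refine lt_of_lt_of_le ?_ (measure_mono hsub)
    rw [Real.volume_Ioo]
    norm_num
  · intro x
    change 0 ≤ -(hs x).re
    rw [hre]
    linarith [Real.cos_le_one ((x ^ 15)⁻¹)]
  · exact integrable_hs.re.neg

/-- the real `15`-th root -/
theorem exists_root (a : ℝ) (ha : a ≠ 0) : ∃ b : ℝ, b ≠ 0 ∧ b ^ 15 = a ∧ |b| = |a| ^ (1 / 15 : ℝ) := by
  have h0 : (0:ℝ) < |a| := abs_pos.2 ha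
  have h1 : (|a| ^ (1 / 15 : ℝ)) ^ 15 = |a| := by
    rw [← Real.rpow_natCast, ← Real.rpow_mul h0.le]
    norm_num
  have h2 : 0 < |a| ^ (1 / 15 : ℝ) := Real.rpow_pos_of_pos h0 _
  rcases lt_or_gt_of_ne ha with h | h
  · refine ⟨-|a| ^ (1 / 15 : ℝ), neg_ne_zero.2 h2.ne', ?_, ?_⟩
    · rw [Odd.neg_pow (by decide), h1, abs_of_neg h, neg_neg]
    · rw [abs_neg, abs_of_pos h2]
  · refine ⟨|a| ^ (1 / 15 : ℝ), h2.ne', ?_, ?_⟩
    · rw [h1, abs_of_pos h]
    · rw [abs_of_pos h2]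

theorem e1_scaled {a b κ : ℝ} (hba : b ^ 15 = a) (γ : ℝ) :
    e1 (a * ((κ * γ) ^ 15)⁻¹) = hs (κ / b * γ) := by
  unfold hs
  congr 1
  rw [← hba]
  rw [show κ / b * γ = (κ * γ) / b by ring, div_pow, inv_div, div_eq_mul_inv]

theorem integrable_scaled (a : ℝ) {κ : ℝ} (hκ : 0 < κ) :
    Integrable (fun γ : ℝ => e1 (a * ((κ * γ) ^ 15)⁻¹)) := by
  rcases eq_or_ne a 0 with rfl | ha
  · have : (fun γ : ℝ => e1 (0 * ((κ * γ) ^ 15)⁻¹)) = fun _ => 0 := by
      funext γ; simp [e1]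
    rw [this]; exact integrable_zero _ _ _
  · obtain ⟨b, hb, hba, -⟩ := exists_root a ha
    simp only [e1_scaled hba]
    exact integrable_hs.comp_mul_left' (div_ne_zero hκ.ne' hb)

theorem integral_scaled (a : ℝ) {κ : ℝ} (hκ : 0 < κ) :
    ∫ γ : ℝ, e1 (a * ((κ * γ) ^ 15)⁻¹) = -(((CC / κ) * |a| ^ (1 / 15 : ℝ) : ℝ) : ℂ) := by
  rcases eq_or_ne a 0 with rfl | ha
  · simp [e1]
  · obtain ⟨b, hb, hba, hab⟩ := exists_root a ha
    simp only [e1_scaled hba]
    rw [Measure.integral_comp_mul_left, integral_hs, inv_div, abs_div, hab, abs_of_pos hκ]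
    rw [smul_neg, Complex.real_smul]
    push_cast
    ring

end

end Pool.Agent.Q30.LV
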