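import Pool.Agent.Q30.LV.Base
import Pool.Agent.Q30.LV.Scale

/-!
# The law of the points and the exponent of the characteristic functional
-/

set_option autoImplicit false

open MeasureTheory Filter Topology Set
open scoped ENNReal NNReal

namespace Pool.Agent.Q30.LV

noncomputable section

/-- the density of the exponential law -/
def expoW (u : ℝ) : ℝ≥0 := Real.toNNReal (Real.exp (-u))

theorem measurable_expoW : Measurable expoW := by unfold expoW; fun_prop

/-- the exponential law -/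
def expo : Measure ℝ := (volume.restrict (Ioi (0 : ℝ))).withDensity (fun u => (expoW u : ℝ≥0∞))

instance : IsProbabilityMeasure expo := by
  constructor
  unfold expo
  rw [withDensity_apply _ MeasurableSet.univ, Measure.restrict_univ]
  have h1 : ∀ u : ℝ, (expoW u : ℝ≥0∞) = ENNReal.ofReal (Real.exp (-u)) := fun u => rfl
  simp only [h1]
  rw [← ofReal_integral_eq_lintegral_ofReal (by exact integrableOn_exp_neg_Ioi 0)
    (Eventually.of_forall fun u => (Real.exp_pos _).le), integral_exp_neg_Ioi_zero]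
  simp

theorem integral_expo (g : ℝ → ℂ) :
    ∫ u, g u ∂expo = ∫ u in Ioi (0 : ℝ), (Real.exp (-u) : ℂ) * g u := by
  unfold expo
  rw [integral_withDensity_eq_integral_smul measurable_expoW]
  refine integral_congr_ae (Eventually.of_forall fun u => ?_)
  simp only [expoW]
  rw [NNReal.smul_def, Real.coe_toNNReal _ (Real.exp_pos _).le, Complex.real_smul]

/-- the uniform law -/
def unif : Measure ℝ := volume.restrict (Ioc (0 : ℝ) 1)

instance : IsProbabilityMeasure unif := by
  constructor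
  unfold unif
  rw [Measure.restrict_apply_univ, Real.volume_Ioc]
  norm_num

/-- the law of a point -/
def rho : Measure (ℝ × ℝ) := expo.prod unif

instance : IsProbabilityMeasure rho := by unfold rho; infer_instance

/-- the jump at a point -/
def jmp (u γ : ℝ) : ℝ := ((CC * Real.exp (-u) * γ) ^ 15)⁻¹

theorem measurable_jmp (m : ℤ) : Measurable (fun e : ℝ × ℝ => jmp e.1 (e.2 + m)) := by
  unfold jmp; fun_prop

theorem third_le {v : ℝ} (hv : v ∈ Ioc (0 : ℝ) 1) {m : ℤ} (h0 : m ≠ 0) (h1 : m ≠ -1) :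
    (|(m : ℝ)| + 1) / 3 ≤ |v + m| := by
  rcases lt_or_ge m 0 with h | h
  · have h2 : m ≤ -2 := by omega
    have h3 : (m : ℝ) ≤ -2 := by exact_mod_cast h2
    rw [abs_of_neg (by linarith : (m : ℝ) < 0), abs_of_neg (by linarith [hv.2] : v + (m:ℝ) < 0)]
    linarith [hv.2]
  · have h2 : 1 ≤ m := by omega
    have h3 : (1 : ℝ) ≤ m := by exact_mod_cast h2
    rw [abs_of_pos (by linarith : 0 < (m : ℝ)), abs_of_pos (by linarith [hv.1] : 0 < v + (m:ℝ))]
    linarith [hv.1]

/-- the constant in the bound for the jumps up to time `T` -/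
def KK (T : ℝ) : ℝ := (3 / (CC * Real.exp (-T))) ^ 15

theorem KK_pos (T : ℝ) : 0 < KK T := by
  unfold KK
  have := CC_pos
  positivity

theorem jmp_le {T u v : ℝ} (hu : u ≤ T) (hv : v ∈ Ioc (0 : ℝ) 1) {m : ℤ} (h0 : m ≠ 0)
    (h1 : m ≠ -1) : |jmp u (v + m)| ≤ KK T * ((|(m : ℝ)| + 1) ^ 15)⁻¹ := by
  have hC := CC_pos
  have h2 := third_le hv h0 h1
  have h3 : Real.exp (-T) ≤ Real.exp (-u) := Real.exp_le_exp.2 (by linarith)
  have h4 : 0 < |(m : ℝ)| + 1 := by positivity
  unfold jmp KK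
  rw [abs_inv, abs_pow, ← inv_pow, ← inv_pow, ← mul_pow]
  refine pow_le_pow_left₀ (by positivity) ?_ 15
  rw [abs_mul, abs_of_pos (by positivity : 0 < CC * Real.exp (-u))]
  rw [show 3 / (CC * Real.exp (-T)) * (|(m : ℝ)| + 1)⁻¹ =
    (CC * Real.exp (-T) * ((|(m : ℝ)| + 1) / 3))⁻¹ by
      field_simp]
  refine inv_anti₀ (by positivity) ?_
  gcongr

theorem summable_sq : Summable (fun m : ℤ => ((|(m : ℝ)| + 1) ^ 2)⁻¹) := by
  have h1 := Real.summable_abs_int_rpow (b := 2) (by norm_num)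
  refine Summable.of_norm_bounded_eventually h1 ?_
  have h2 : ∀ᶠ m : ℤ in cofinite, m ≠ 0 := by
    have := (Set.finite_singleton (0 : ℤ)).compl_mem_cofinite
    filter_upwards [this] with m hm
    simpa using hm
  filter_upwards [h2] with m hm
  have h3 : (0 : ℝ) < |(m : ℝ)| := by
    have : (m : ℝ) ≠ 0 := by exact_mod_cast hm
    positivity
  rw [Real.norm_of_nonneg (by positivity), Real.rpow_neg h3.le]
  refine inv_anti₀ (by positivity) ?_
  have : |(m:ℝ)| ^ (2:ℝ) = |(m:ℝ)| ^ 2 := by norm_num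
  rw [this]
  gcongr
  linarith

theorem pow_cmp (m : ℤ) : ((|(m : ℝ)| + 1) ^ 15)⁻¹ ≤ ((|(m : ℝ)| + 1) ^ 2)⁻¹ := by
  refine inv_anti₀ (by positivity) ?_
  exact pow_le_pow_right₀ (by linarith [abs_nonneg (m : ℝ)]) (by norm_num)

/-- the contribution of the cell `m` before integrating over the time -/
def hh (f : ℝ → ℝ) (m : ℤ) (u : ℝ) : ℂ := ∫ v, e1 (f u * jmp u (v + m)) ∂unif

theorem measurable_integrand {f : ℝ → ℝ} (hf : Measurable f) (m : ℤ) :
    Measurable (fun e : ℝ × ℝ => e1 (f e.1 * jmp e.1 (e.2 + m))) :=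
  measurable_e1.comp ((hf.comp measurable_fst).mul (measurable_jmp m))

theorem hh_hasSum (f : ℝ → ℝ) (u : ℝ) :
    HasSum (fun m : ℤ => hh f m u)
      (-(((CC / (CC * Real.exp (-u))) * |f u| ^ (1 / 15 : ℝ) : ℝ) : ℂ)) := by
  have hκ : 0 < CC * Real.exp (-u) := mul_pos CC_pos (Real.exp_pos _)
  have h1 := (integrable_scaled (f u) hκ).hasSum_intervalIntegral_comp_add_int
  rw [integral_scaled (f u) hκ] at h1
  have e : (fun m : ℤ => hh f m u) = fun m : ℤ =>
      ∫ x in (0 : ℝ)..1, e1 (f u * ((CC * Real.exp (-u) * (x + m)) ^ 15)⁻¹) := by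
    funext m
    unfold hh unif jmp
    rw [intervalIntegral.integral_of_le zero_le_one]
  rw [e]
  exact h1

theorem hh_bound {f : ℝ → ℝ} {M T : ℝ} (hb : ∀ u, |f u| ≤ M)
    (hs : ∀ u, u ∉ Ioc 0 T → f u = 0) (m : ℤ) (u : ℝ) :
    ‖hh f m u‖ ≤ (8 + M * KK T) * ((|(m : ℝ)| + 1) ^ 2)⁻¹ := by
  have hK := KK_pos T
  have hM : 0 ≤ M := (abs_nonneg _).trans (hb 0)
  have hp : 0 < ((|(m : ℝ)| + 1) ^ 2)⁻¹ := by positivity
  have key : ∀ v ∈ Ioc (0:ℝ) 1, ‖e1 (f u * jmp u (v + m))‖ ≤
      (8 + M * KK T) * ((|(m : ℝ)| + 1) ^ 2)⁻¹ := by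
    intro v hv
    by_cases hu : u ∈ Ioc 0 T
    · by_cases h0 : m = 0 ∨ m = -1
      · refine (e1_le_two _).trans ?_
        have h1 : |(m : ℝ)| ≤ 1 := by rcases h0 with rfl | rfl <;> norm_num
        have h2 : (1 / 4 : ℝ) ≤ ((|(m : ℝ)| + 1) ^ 2)⁻¹ := by
          rw [one_div]
          refine inv_anti₀ (by positivity) ?_
          nlinarith [abs_nonneg (m : ℝ)]
        nlinarith [mul_nonneg (mul_nonneg hM hK.le) hp.le]
      · push Not at h0
        refine (e1_le _).trans ?_
        rw [abs_mul]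
        have h1 := jmp_le hu.2 hv h0.1 h0.2
        have h2 := pow_cmp m
        calc |f u| * |jmp u (v + m)| ≤ M * (KK T * ((|(m : ℝ)| + 1) ^ 15)⁻¹) := by
              gcongr
              exact hb u
          _ ≤ M * (KK T * ((|(m : ℝ)| + 1) ^ 2)⁻¹) := by gcongr
          _ ≤ _ := by nlinarith
    · rw [hs u hu]
      simp only [e1, zero_mul, Complex.ofReal_zero, Complex.exp_zero, sub_self, norm_zero]
      positivity
  unfold hh
  have h3 := norm_setIntegral_le_of_norm_le_const (μ := volume) (s := Ioc (0:ℝ) 1)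
    (f := fun v => e1 (f u * jmp u (v + m))) (by rw [Real.volume_Ioc]; exact ENNReal.ofReal_lt_top)
    (fun v hv => key v hv)
  rw [Real.volume_real_Ioc_of_le zero_le_one] at h3
  simpa [unif] using h3

/-- The exponent of the characteristic functional. -/
theorem psi_sum {f : ℝ → ℝ} (hf : Measurable f) {M T : ℝ} (hb : ∀ u, |f u| ≤ M)
    (hs : ∀ u, u ∉ Ioc 0 T → f u = 0) :
    HasSum (fun m : ℤ => ∫ e, (Complex.exp (((f e.1 * jmp e.1 (e.2 + m) : ℝ) : ℂ) * Complex.I) - 1)
      ∂rho) (-((∫ u in Ioi (0 : ℝ), |f u| ^ (1 / 15 : ℝ) : ℝ) : ℂ)) := by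
  have h1 : ∀ m : ℤ, ∫ e, (Complex.exp (((f e.1 * jmp e.1 (e.2 + m) : ℝ) : ℂ) * Complex.I) - 1)
      ∂rho = ∫ u, hh f m u ∂expo := by
    intro m
    have hi : Integrable (fun e : ℝ × ℝ => e1 (f e.1 * jmp e.1 (e.2 + m))) (expo.prod unif) :=
      Integrable.of_bound (measurable_integrand hf m).aestronglyMeasurable 2
        (Eventually.of_forall fun e => e1_le_two _)
    exact integral_prod _ hi
  simp only [h1]
  have h2 : -((∫ u in Ioi (0 : ℝ), |f u| ^ (1 / 15 : ℝ) : ℝ) : ℂ) =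
      ∫ u, (-(((CC / (CC * Real.exp (-u))) * |f u| ^ (1 / 15 : ℝ) : ℝ) : ℂ)) ∂expo := by
    rw [integral_expo, ← integral_complex_ofReal, ← integral_neg]
    refine integral_congr_ae (Eventually.of_forall fun u => ?_)
    simp only
    rw [mul_neg, ← Complex.ofReal_mul]
    congr 2
    have hC := CC_pos.ne'
    have he := (Real.exp_pos (-u)).ne'
    field_simp
  rw [h2]
  refine hasSum_integral_of_dominated_convergence
    (fun m _ => (8 + M * KK T) * ((|(m : ℝ)| + 1) ^ 2)⁻¹) ?_ ?_ ?_ ?_ ?_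
  · intro m
    have := (measurable_integrand hf m).stronglyMeasurable.integral_prod_right' (ν := unif)
    exact this.aestronglyMeasurable
  · exact fun m => Eventually.of_forall fun u => hh_bound hb hs m u
  · exact Eventually.of_forall fun u => summable_sq.mul_left _
  · exact integrable_const _
  · exact Eventually.of_forall fun u => hh_hasSum f u

end

end Pool.Agent.Q30.LV
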