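import Pool.Agent.Q30.LV.Proc

/-!
# Paths and increments of the process
-/

set_option autoImplicit false

open MeasureTheory Filter Topology Set ProbabilityTheory
open scoped ENNReal NNReal

namespace Pool.Agent.Q30.LV

noncomputable section

theorem ind_right (t u : ℝ) : ∀ᶠ s in 𝓝[≥] t, ind s u = ind t u := by
  rcases le_or_gt u t with h | h
  · filter_upwards [self_mem_nhdsWithin] with s hs
    have hs' : t ≤ s := hs
    unfold ind
    by_cases h0 : 0 < u
    · rw [indicator_of_mem (show u ∈ Ioc 0 s from ⟨h0, h.trans hs'⟩),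
        indicator_of_mem (show u ∈ Ioc 0 t from ⟨h0, h⟩)]
    · rw [indicator_of_notMem (fun hh => h0 hh.1), indicator_of_notMem (fun hh => h0 hh.1)]
  · filter_upwards [mem_nhdsWithin_of_mem_nhds (Iio_mem_nhds h)] with s hs
    have hs' : s < u := hs
    unfold ind
    rw [indicator_of_notMem (fun hh => absurd hh.2 (not_le.2 hs')),
      indicator_of_notMem (fun hh => absurd hh.2 (not_le.2 h))]

/-- the indicator function of `(0, t)` -/
def indL (t u : ℝ) : ℝ := (Ioo (0:ℝ) t).indicator (fun _ => (1:ℝ)) u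

theorem ind_left (t u : ℝ) : ∀ᶠ s in 𝓝[<] t, ind s u = indL t u := by
  rcases lt_or_ge u t with h | h
  · filter_upwards [mem_nhdsWithin_of_mem_nhds (Ioi_mem_nhds h)] with s hs
    have hs' : u < s := hs
    unfold ind indL
    by_cases h0 : 0 < u
    · rw [indicator_of_mem (show u ∈ Ioc 0 s from ⟨h0, hs'.le⟩),
        indicator_of_mem (show u ∈ Ioo 0 t from ⟨h0, h⟩)]
    · rw [indicator_of_notMem (fun hh => h0 hh.1), indicator_of_notMem (fun hh => h0 hh.1)]
  · filter_upwards [self_mem_nhdsWithin] with s hs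
    have hs' : s < t := hs
    unfold ind indL
    rw [indicator_of_notMem (fun hh => absurd hh.2 (not_le.2 (hs'.trans_le h))),
      indicator_of_notMem (fun hh => absurd hh.2 (not_lt.2 h))]

theorem ind_mono {s T : ℝ} (h : s ≤ T) (u : ℝ) : |ind s u| ≤ |ind T u| := by
  unfold ind
  by_cases hu : u ∈ Ioc 0 s
  · rw [indicator_of_mem hu, indicator_of_mem (show u ∈ Ioc 0 T from ⟨hu.1, hu.2.trans h⟩)]
  · rw [indicator_of_notMem hu]; simp

theorem cs_tendsto {F : Filter ℝ} {g : ℝ → ℝ} (h : ∀ u, ∀ᶠ s in F, ind s u = g u) (m : ℤ)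
    (x : Cell (ℝ × ℝ)) :
    Tendsto (fun s => cs (xj (ind s) m) x) F (𝓝 (cs (xj g m) x)) := by
  have h1 : ∀ᶠ s in F, ∀ i ∈ Finset.range x.1, ind s (x.2 i).1 = g (x.2 i).1 := by
    rw [Filter.eventually_all_finset]
    exact fun i _ => h _
  refine tendsto_const_nhds.congr' ?_
  filter_upwards [h1] with s hs
  unfold cs xj
  exact Finset.sum_congr rfl fun i hi => by rw [hs i hi]

theorem tsum_tendsto {ω : W} (h : ω ∈ Gd) {F : Filter ℝ} {g : ℝ → ℝ} {T : ℝ}
    (hF : ∀ᶠ s in F, s ≤ T) (hg : ∀ u, ∀ᶠ s in F, ind s u = g u) :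
    Tendsto (fun s => X s ω) F (𝓝 (∑' m : ℤ, cs (xj g m) (ω m))) := by
  have h1 : ∀ s, X s ω = ∑' m : ℤ, cs (xj (ind s) m) (ω m) := fun s => by
    unfold X; rw [if_pos h]
  simp only [h1]
  refine tendsto_tsum_of_dominated_convergence (summable_cs_abs h (ind_bd T) (ind_zero T))
    (fun m => cs_tendsto hg m (ω m)) ?_
  filter_upwards [hF] with s hs m
  refine (cs_abs_le _ _).trans (cs_mono _ fun i => ?_)
  unfold xj
  rw [abs_mul, abs_mul]
  exact mul_le_mul_of_nonneg_right (ind_mono hs _) (abs_nonneg _)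

theorem X_right {ω : W} (h : ω ∈ Gd) (t : ℝ) : ContinuousWithinAt (fun s => X s ω) (Ici t) t := by
  have h1 := tsum_tendsto h (F := 𝓝[≥] t) (g := ind t) (T := t + 1)
    (by filter_upwards [mem_nhdsWithin_of_mem_nhds (Iic_mem_nhds (by linarith : t < t + 1))] with s hs
        exact hs) (ind_right t)
  have h2 : X t ω = ∑' m : ℤ, cs (xj (ind t) m) (ω m) := by unfold X; rw [if_pos h]
  rw [← h2] at h1
  exact h1

theorem X_left {ω : W} (h : ω ∈ Gd) (t : ℝ) : ∃ l : ℝ, Tendsto (fun s => X s ω) (𝓝[<] t) (𝓝 l) :=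
  ⟨_, tsum_tendsto h (F := 𝓝[<] t) (g := indL t) (T := t)
    (by filter_upwards [self_mem_nhdsWithin] with s hs
        exact (show s < t from hs).le) (ind_left t)⟩

/-- the step function -/
def stp {n : ℕ} (t : Fin (n + 1) → ℝ) (ξ : Fin n → ℝ) (u : ℝ) : ℝ :=
  ∑ k, ξ k * (ind (t k.succ) u - ind (t k.castSucc) u)

theorem ind_sub {s t u : ℝ} (hs : 0 ≤ s) (hst : s ≤ t) :
    ind t u - ind s u = (Ioc s t).indicator (fun _ => (1:ℝ)) u := by
  unfold ind
  by_cases h1 : u ∈ Ioc s t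
  · rw [indicator_of_mem h1, indicator_of_mem (show u ∈ Ioc 0 t from ⟨hs.trans_lt h1.1, h1.2⟩),
      indicator_of_notMem (fun h => absurd h.2 (not_le.2 h1.1))]
    ring
  · rw [indicator_of_notMem h1]
    by_cases h2 : u ∈ Ioc 0 s
    · rw [indicator_of_mem h2, indicator_of_mem (show u ∈ Ioc 0 t from ⟨h2.1, h2.2.trans hst⟩)]
      ring
    · rw [indicator_of_notMem h2, indicator_of_notMem]
      · ring
      · intro h3
        by_cases h4 : u ≤ s
        · exact h2 ⟨h3.1, h4⟩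
        · exact h1 ⟨not_le.1 h4, h3.2⟩

theorem stp_eq {n : ℕ} {t : Fin (n + 1) → ℝ} (h0 : 0 ≤ t 0) (ht : Monotone t) (ξ : Fin n → ℝ)
    (u : ℝ) : stp t ξ u =
      ∑ k, ξ k * (Ioc (t k.castSucc) (t k.succ)).indicator (fun _ => (1:ℝ)) u := by
  unfold stp
  refine Finset.sum_congr rfl fun k _ => ?_
  rw [ind_sub (h0.trans (ht (Fin.zero_le _))) (ht (Fin.castSucc_le_succ k))]

theorem disj {n : ℕ} {t : Fin (n + 1) → ℝ} (ht : Monotone t) {u : ℝ} {j k : Fin n}
    (hj : u ∈ Ioc (t j.castSucc) (t j.succ)) (hk : u ∈ Ioc (t k.castSucc) (t k.succ)) : j = k := by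
  by_contra hne
  rcases lt_or_gt_of_ne hne with h | h
  · have h1 : j.succ ≤ k.castSucc := by
      rw [Fin.le_def]; simp only [Fin.val_succ, Fin.val_castSucc]; exact h
    have h2 := ht h1
    linarith [hj.2, hk.1]
  · have h1 : k.succ ≤ j.castSucc := by
      rw [Fin.le_def]; simp only [Fin.val_succ, Fin.val_castSucc]; exact h
    have h2 := ht h1
    linarith [hk.2, hj.1]

theorem stp_rpow {n : ℕ} {t : Fin (n + 1) → ℝ} (h0 : 0 ≤ t 0) (ht : Monotone t) (ξ : Fin n → ℝ)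
    (u : ℝ) : |stp t ξ u| ^ (1 / 15 : ℝ) =
      ∑ k, |ξ k| ^ (1 / 15 : ℝ) *
        (Ioc (t k.castSucc) (t k.succ)).indicator (fun _ => (1:ℝ)) u := by
  rw [stp_eq h0 ht]
  by_cases h : ∃ k : Fin n, u ∈ Ioc (t k.castSucc) (t k.succ)
  · obtain ⟨k, hk⟩ := h
    have h1 : ∀ j, j ≠ k → (Ioc (t j.castSucc) (t j.succ)).indicator (fun _ => (1:ℝ)) u = 0 :=
      fun j hj => indicator_of_notMem (fun hh => hj (disj ht hh hk)) _
    rw [Finset.sum_eq_single k (fun j _ hj => by rw [h1 j hj, mul_zero])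
      (fun h => absurd (Finset.mem_univ _) h),
      Finset.sum_eq_single k (fun j _ hj => by rw [h1 j hj, mul_zero])
      (fun h => absurd (Finset.mem_univ _) h), indicator_of_mem hk, mul_one, mul_one]
  · push Not at h
    have h1 : ∀ j : Fin n, (Ioc (t j.castSucc) (t j.succ)).indicator (fun _ => (1:ℝ)) u = 0 :=
      fun j => indicator_of_notMem (h j) _
    simp only [h1, mul_zero, Finset.sum_const_zero, abs_zero]
    rw [Real.zero_rpow (by norm_num)]

theorem stp_integral {n : ℕ} {t : Fin (n + 1) → ℝ} (h0 : 0 ≤ t 0) (ht : Monotone t)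
    (ξ : Fin n → ℝ) : ∫ u in Ioi (0:ℝ), |stp t ξ u| ^ (1 / 15 : ℝ) =
      ∑ k, |ξ k| ^ (1 / 15 : ℝ) * (t k.succ - t k.castSucc) := by
  simp only [stp_rpow h0 ht]
  have hi : ∀ k : Fin n, Integrable ((Ioc (t k.castSucc) (t k.succ)).indicator
      (fun _ => (1:ℝ))) (volume.restrict (Ioi 0)) := by
    intro k
    rw [integrable_indicator_iff measurableSet_Ioc]
    refine integrableOn_const (hs := ?_) (hC := by simp)
    refine (lt_of_le_of_lt (Measure.restrict_apply_le _ _) ?_).ne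
    rw [Real.volume_Ioc]
    exact ENNReal.ofReal_lt_top
  rw [integral_finsetSum _ (fun k _ => (hi k).const_mul _)]
  refine Finset.sum_congr rfl fun k _ => ?_
  rw [integral_const_mul, integral_indicator measurableSet_Ioc, Measure.restrict_restrict
    measurableSet_Ioc]
  have h1 : 0 ≤ t k.castSucc := h0.trans (ht (Fin.zero_le _))
  have h2 : Ioc (t k.castSucc) (t k.succ) ∩ Ioi 0 = Ioc (t k.castSucc) (t k.succ) := by
    ext x
    simp only [mem_inter_iff, mem_Ioc, mem_Ioi]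
    exact ⟨fun h => h.1, fun h => ⟨h, h1.trans_lt h.1⟩⟩
  rw [h2]
  simp only [integral_const, smul_eq_mul, mul_one, measureReal_restrict_apply_univ]
  rw [Real.volume_real_Ioc_of_le (ht (Fin.castSucc_le_succ k))]

theorem cs_stp {n : ℕ} (t : Fin (n + 1) → ℝ) (ξ : Fin n → ℝ) (m : ℤ) (x : Cell (ℝ × ℝ)) :
    cs (xj (stp t ξ) m) x =
      ∑ k, ξ k * (cs (xj (ind (t k.succ)) m) x - cs (xj (ind (t k.castSucc)) m) x) := by
  unfold cs xj stp
  simp only [Finset.sum_mul, ← Finset.sum_sub_distrib, Finset.mul_sum]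
  rw [Finset.sum_comm]
  refine Finset.sum_congr rfl fun k _ => Finset.sum_congr rfl fun i _ => ?_
  ring

theorem stp_hasSum {ω : W} (h : ω ∈ Gd) {n : ℕ} (t : Fin (n + 1) → ℝ) (ξ : Fin n → ℝ) :
    HasSum (fun m : ℤ => cs (xj (stp t ξ) m) (ω m))
      (∑ k, ξ k * (X (t k.succ) ω - X (t k.castSucc) ω)) := by
  simp only [cs_stp]
  exact hasSum_sum fun k _ => ((X_hasSum h _).sub (X_hasSum h _)).mul_left _

theorem measurable_stp {n : ℕ} (t : Fin (n + 1) → ℝ) (ξ : Fin n → ℝ) : Measurable (stp t ξ) := by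
  unfold stp
  exact Finset.measurable_fun_sum _ fun k _ =>
    ((measurable_ind _).sub (measurable_ind _)).const_mul _

theorem stp_bd {n : ℕ} (t : Fin (n + 1) → ℝ) (ξ : Fin n → ℝ) (u : ℝ) :
    |stp t ξ u| ≤ ∑ k, |ξ k| * 2 := by
  unfold stp
  refine (Finset.abs_sum_le_sum_abs _ _).trans (Finset.sum_le_sum fun k _ => ?_)
  rw [abs_mul]
  have h1 := ind_bd (t k.succ) u
  have h2 := ind_bd (t k.castSucc) u
  have h3 := abs_sub (ind (t k.succ) u) (ind (t k.castSucc) u)
  gcongr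
  linarith

theorem stp_supp {n : ℕ} {t : Fin (n + 1) → ℝ} (ht : Monotone t) (ξ : Fin n → ℝ) (u : ℝ)
    (hu : u ∉ Ioc 0 (t (Fin.last n))) : stp t ξ u = 0 := by
  unfold stp
  refine Finset.sum_eq_zero fun k _ => ?_
  rw [ind_zero _ _ (fun h => hu ⟨h.1, h.2.trans (ht (Fin.le_last _))⟩),
    ind_zero _ _ (fun h => hu ⟨h.1, h.2.trans (ht (Fin.le_last _))⟩)]
  ring

/-- The joint characteristic function of the increments. -/
theorem joint {n : ℕ} {t : Fin (n + 1) → ℝ} (h0 : 0 ≤ t 0) (ht : Monotone t) (ξ : Fin n → ℝ) :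
    ∫ ω, Complex.exp (((∑ k, ξ k * (X (t k.succ) ω - X (t k.castSucc) ω) : ℝ) : ℂ) * Complex.I) ∂Q =
      Complex.exp (-((∑ k, |ξ k| ^ (1 / 15 : ℝ) * (t k.succ - t k.castSucc) : ℝ) : ℂ)) := by
  rw [← stp_integral h0 ht ξ]
  refine total_char rho (G := fun m => xj (stp t ξ) m)
    (fun m => measurable_xj (measurable_stp t ξ) m) ?_ ?_
  · filter_upwards [ae_Gd] with ω hω
    exact stp_hasSum hω t ξ
  · exact psi_sum (measurable_stp t ξ) (stp_bd t ξ) (stp_supp ht ξ)

theorem char_incr {s t : ℝ} (hs : 0 ≤ s) (hst : s ≤ t) (ξ : ℝ) :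
    ∫ ω, Complex.exp (((ξ * (X t ω - X s ω) : ℝ) : ℂ) * Complex.I) ∂Q =
      ((Real.exp (-(t - s) * |ξ| ^ (1 / 15 : ℝ)) : ℝ) : ℂ) := by
  have h1 : Monotone (![s, t] : Fin 2 → ℝ) := by
    intro i j hij
    fin_cases i <;> fin_cases j <;> simp_all
  have h2 := joint (n := 1) (t := ![s, t]) (by simpa using hs) h1 (fun _ => ξ)
  simp only [Finset.univ_unique, Fin.default_eq_zero, Finset.sum_singleton] at h2
  simp only [Fin.isValue, Fin.succ_zero_eq_one, Matrix.cons_val_one, Matrix.cons_val_fin_one,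
    Fin.castSucc_zero, Matrix.cons_val_zero] at h2
  rw [h2, ← Complex.ofReal_neg, ← Complex.ofReal_exp]
  congr 2
  ring

theorem indep {n : ℕ} {t : Fin (n + 1) → ℝ} (h0 : 0 ≤ t 0) (ht : Monotone t) :
    iIndepFun (fun (i : Fin n) (ω : W) => X (t i.succ) ω - X (t i.castSucc) ω) Q := by
  have hm : ∀ i : Fin n, Measurable (fun ω : W => X (t i.succ) ω - X (t i.castSucc) ω) :=
    fun i => (measurable_X _).sub (measurable_X _)
  rw [iIndepFun_iff_charFun_pi (fun i => (hm i).aemeasurable)]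
  intro ξ
  have h1 : ∀ i : Fin n, charFun (Q.map (fun ω : W => X (t i.succ) ω - X (t i.castSucc) ω)) (ξ i) =
      ((Real.exp (-(t i.succ - t i.castSucc) * |ξ i| ^ (1 / 15 : ℝ)) : ℝ) : ℂ) := by
    intro i
    rw [charFun_apply_real, integral_map (hm i).aemeasurable (by fun_prop)]
    rw [← char_incr (h0.trans (ht (Fin.zero_le _))) (ht (Fin.castSucc_le_succ i))]
    refine integral_congr_ae (Eventually.of_forall fun ω => ?_)
    simp only
    push_cast
    ring_nf
  simp only [h1]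
  rw [charFun_apply, integral_map]
  · have h2 := joint h0 ht (fun i => ξ i)
    rw [← Complex.ofReal_prod, ← Real.exp_sum]
    rw [← Complex.ofReal_neg, ← Complex.ofReal_exp] at h2
    rw [show (∑ x : Fin n, -(t x.succ - t x.castSucc) * |ξ x| ^ (1 / 15 : ℝ)) =
      -∑ k, |ξ k| ^ (1 / 15 : ℝ) * (t k.succ - t k.castSucc) by
        rw [← Finset.sum_neg_distrib]
        exact Finset.sum_congr rfl fun k _ => by ring, ← h2]
    refine integral_congr_ae (Eventually.of_forall fun ω => ?_)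
    simp only
    rw [PiLp.inner_apply]
    rfl
  · exact ((WithLp.measurable_toLp 2 (Fin n → ℝ)).comp (measurable_pi_lambda _ hm)).aemeasurable
  · fun_prop

end

end Pool.Agent.Q30.LV
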