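import Pool.Agent.Q30.LV.Law

/-!
# The process
-/

set_option autoImplicit false

open MeasureTheory Filter Topology Set ProbabilityTheory
open scoped ENNReal NNReal

namespace Pool.Agent.Q30.LV

noncomputable section

/-- the sample space of the process -/
abbrev W : Type := Om (ℝ × ℝ)

/-- the probability -/
abbrev Q : Measure W := PP rho

/-- the contribution of a mark of the cell `m` -/
def xj (f : ℝ → ℝ) (m : ℤ) (e : ℝ × ℝ) : ℝ := f e.1 * jmp e.1 (e.2 + m)

theorem measurable_xj {f : ℝ → ℝ} (hf : Measurable f) (m : ℤ) : Measurable (xj f m) :=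
  (hf.comp measurable_fst).mul (measurable_jmp m)

/-- the weighted number of points -/
def Zw (ω : W) : ℝ≥0∞ := ∑' m : ℤ, ((ω m).1 : ℝ≥0∞) * ENNReal.ofReal (((|(m:ℝ)| + 1) ^ 2)⁻¹)

theorem measurable_Zw : Measurable Zw := by
  unfold Zw
  refine Measurable.ennreal_tsum fun m => ?_
  have h : Measurable (fun ω : W => ((ω m).1 : ℝ≥0∞)) :=
    (measurable_from_top (f := fun n : ℕ => (n : ℝ≥0∞))).comp
      (measurable_fst.comp (measurable_pi_apply m))
  exact h.mul_const _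

/-- the good samples -/
def Gd : Set W := {ω | (∀ m i, ((ω m).2 i).2 ∈ Ioc (0:ℝ) 1) ∧ Zw ω ≠ ⊤}

theorem measurable_pt (m : ℤ) (i : ℕ) : Measurable (fun ω : W => (ω m).2 i) :=
  (measurable_pi_apply i).comp (measurable_snd.comp (measurable_pi_apply m))

theorem measurableSet_Gd : MeasurableSet Gd := by
  have h1 : Gd = (⋂ (m : ℤ) (i : ℕ), {ω : W | ((ω m).2 i).2 ∈ Ioc (0:ℝ) 1}) ∩ {ω | Zw ω ≠ ⊤} := by
    ext ω
    simp only [Gd, mem_inter_iff, mem_iInter, Set.mem_ofPred_eq]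
  rw [h1]
  refine MeasurableSet.inter ?_ ?_
  · exact MeasurableSet.iInter fun m => MeasurableSet.iInter fun i =>
      (measurable_snd.comp (measurable_pt m i)) measurableSet_Ioc
  · exact (measurable_Zw (measurableSet_singleton ⊤)).compl

theorem map_cell (m : ℤ) : Q.map (fun ω : W => ω m) = cellM rho :=
  Measure.infinitePi_map_eval _ m

theorem map_pt (m : ℤ) (i : ℕ) : Q.map (fun ω : W => (ω m).2 i) = rho := by
  have h1 : (cellM rho).map (fun x : Cell (ℝ × ℝ) => x.2) =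
      Measure.infinitePi fun _ : ℕ => rho := by
    unfold cellM
    simp [Measure.map_snd_prod]
  have h2 : (Measure.infinitePi fun _ : ℕ => rho).map (fun y : ℕ → ℝ × ℝ => y i) = rho :=
    Measure.infinitePi_map_eval _ i
  rw [← map_cell m, Measure.map_map measurable_snd (measurable_pi_apply m)] at h1
  rw [← h1, Measure.map_map (measurable_pi_apply i)
    (measurable_snd.comp (measurable_pi_apply m))] at h2
  exact h2

theorem ae_pt (m : ℤ) (i : ℕ) : ∀ᵐ ω ∂Q, ((ω m).2 i).2 ∈ Ioc (0:ℝ) 1 := by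
  have h1 : ∀ᵐ e ∂rho, e.2 ∈ Ioc (0:ℝ) 1 := by
    have h2 : rho.map Prod.snd = unif := by
      unfold rho
      simp [Measure.map_snd_prod]
    have h3 : ∀ᵐ v ∂unif, v ∈ Ioc (0:ℝ) 1 := ae_restrict_mem measurableSet_Ioc
    rw [← h2] at h3
    exact ae_of_ae_map measurable_snd.aemeasurable h3
  rw [← map_pt m i] at h1
  exact ae_of_ae_map (measurable_pt m i).aemeasurable h1

theorem poisson_mean : ∫⁻ n, (n : ℝ≥0∞) ∂(poissonMeasure 1) ≠ ⊤ := by
  have h1 : Integrable (fun n : ℕ => (n : ℝ)) (poissonMeasure 1) := by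
    rw [integrable_poissonMeasure_iff]
    refine Summable.of_nonneg_of_le (fun n => by positivity) (fun n => ?_)
      (Real.summable_pow_div_factorial 2)
    simp only [NNReal.coe_one, one_pow, mul_one, Real.norm_natCast]
    have h2 : Real.exp (-1) ≤ 1 := by
      rw [Real.exp_le_one_iff]; norm_num
    have h3 : (n : ℝ) ≤ 2 ^ n := by exact_mod_cast (Nat.lt_two_pow_self (n := n)).le
    rw [div_mul_eq_mul_div]
    gcongr
    calc Real.exp (-1) * n ≤ 1 * n := by gcongr
      _ ≤ 2 ^ n := by rw [one_mul]; exact h3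
  have h2 := h1.hasFiniteIntegral
  unfold HasFiniteIntegral at h2
  have h3 : ∀ n : ℕ, ‖(n : ℝ)‖ₑ = (n : ℝ≥0∞) := by
    intro n
    rw [Real.enorm_eq_ofReal (by positivity), ENNReal.ofReal_natCast]
  simp only [h3] at h2
  exact h2.ne

theorem ae_Zw : ∀ᵐ ω ∂Q, Zw ω ≠ ⊤ := by
  have h1 : ∫⁻ ω, Zw ω ∂Q ≠ ⊤ := by
    unfold Zw
    have hm : ∀ m : ℤ, Measurable (fun ω : W => ((ω m).1 : ℝ≥0∞)) := fun m =>
      (measurable_from_top (f := fun n : ℕ => (n : ℝ≥0∞))).comp
      (measurable_fst.comp (measurable_pi_apply m))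
    rw [lintegral_tsum (fun m => ((hm m).mul_const _).aemeasurable)]
    have h2 : ∀ m : ℤ, ∫⁻ ω : W, ((ω m).1 : ℝ≥0∞) ∂Q = ∫⁻ n, (n : ℝ≥0∞) ∂(poissonMeasure 1) := by
      intro m
      have h3 : Q.map (fun ω : W => (ω m).1) = poissonMeasure 1 := by
        have h4 : (cellM rho).map (fun x : Cell (ℝ × ℝ) => x.1) = poissonMeasure 1 := by
          unfold cellM
          simp [Measure.map_fst_prod]
        rw [← map_cell m, Measure.map_map measurable_fst (measurable_pi_apply m)] at h4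
        exact h4
      have h5 := lintegral_map (μ := Q) (f := fun n : ℕ => (n : ℝ≥0∞))
        (g := fun ω : W => (ω m).1) measurable_from_top
        (measurable_fst.comp (measurable_pi_apply m))
      rw [h3] at h5
      exact h5.symm
    have h3 : ∀ m : ℤ, ∫⁻ ω : W, ((ω m).1 : ℝ≥0∞) * ENNReal.ofReal (((|(m:ℝ)| + 1) ^ 2)⁻¹) ∂Q =
        (∫⁻ n, (n : ℝ≥0∞) ∂(poissonMeasure 1)) * ENNReal.ofReal (((|(m:ℝ)| + 1) ^ 2)⁻¹) := by
      intro m
      rw [lintegral_mul_const _ (hm m), h2 m]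
    simp only [h3]
    rw [ENNReal.tsum_mul_left]
    refine ENNReal.mul_ne_top poisson_mean ?_
    rw [← ENNReal.ofReal_tsum_of_nonneg (fun m => by positivity) summable_sq]
    exact ENNReal.ofReal_ne_top
  exact (ae_lt_top measurable_Zw h1).mono fun ω h => h.ne

theorem ae_Gd : ∀ᵐ ω ∂Q, ω ∈ Gd := by
  have h1 : ∀ᵐ ω ∂Q, ∀ (m : ℤ) (i : ℕ), ((ω m).2 i).2 ∈ Ioc (0:ℝ) 1 := by
    rw [ae_all_iff]; intro m
    rw [ae_all_iff]; intro i
    exact ae_pt m i
  filter_upwards [h1, ae_Zw] with ω h2 h3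
  exact ⟨h2, h3⟩

/-- the weights of a good sample are summable -/
theorem summable_N {ω : W} (h : ω ∈ Gd) :
    Summable (fun m : ℤ => ((ω m).1 : ℝ) * ((|(m:ℝ)| + 1) ^ 2)⁻¹) := by
  have h1 := ENNReal.summable_toReal h.2
  refine h1.congr fun m => ?_
  rw [ENNReal.toReal_mul, ENNReal.toReal_natCast, ENNReal.toReal_ofReal (by positivity)]

theorem cs_abs_le (g : ℝ × ℝ → ℝ) (x : Cell (ℝ × ℝ)) : |cs g x| ≤ cs (fun e => |g e|) x := by
  unfold cs
  exact Finset.abs_sum_le_sum_abs _ _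

theorem cs_mono {g g' : ℝ × ℝ → ℝ} (x : Cell (ℝ × ℝ)) (h : ∀ i, g (x.2 i) ≤ g' (x.2 i)) :
    cs g x ≤ cs g' x := by
  unfold cs
  exact Finset.sum_le_sum fun i _ => h i

/-- bound for the contribution of a cell -/
theorem cs_bound {ω : W} (h : ω ∈ Gd) {f : ℝ → ℝ} {M T : ℝ} (hb : ∀ u, |f u| ≤ M)
    (hs : ∀ u, u ∉ Ioc 0 T → f u = 0) {m : ℤ} (h0 : m ≠ 0) (h1 : m ≠ -1) :
    cs (fun e => |xj f m e|) (ω m) ≤ (M * KK T) * (((ω m).1 : ℝ) * ((|(m:ℝ)| + 1) ^ 15)⁻¹) := by
  have hK := KK_pos T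
  have hM : 0 ≤ M := (abs_nonneg _).trans (hb 0)
  unfold cs
  have h2 : ∀ i ∈ Finset.range (ω m).1, |xj f m ((ω m).2 i)| ≤
      M * KK T * ((|(m:ℝ)| + 1) ^ 15)⁻¹ := by
    intro i _
    unfold xj
    by_cases hu : ((ω m).2 i).1 ∈ Ioc 0 T
    · rw [abs_mul, mul_assoc]
      have h3 := jmp_le hu.2 (h.1 m i) h0 h1
      gcongr
      exact hb _
    · rw [hs _ hu, zero_mul, abs_zero]
      positivity
  refine (Finset.sum_le_sum h2).trans ?_
  rw [Finset.sum_const, Finset.card_range, nsmul_eq_mul]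
  apply le_of_eq
  ring

theorem summable_cs_abs {ω : W} (h : ω ∈ Gd) {f : ℝ → ℝ} {M T : ℝ} (hb : ∀ u, |f u| ≤ M)
    (hs : ∀ u, u ∉ Ioc 0 T → f u = 0) :
    Summable (fun m : ℤ => cs (fun e => |xj f m e|) (ω m)) := by
  have hK := KK_pos T
  have hM : 0 ≤ M := (abs_nonneg _).trans (hb 0)
  refine Summable.of_norm_bounded_eventually ((summable_N h).mul_left (M * KK T)) ?_
  have h2 : ∀ᶠ m : ℤ in cofinite, m ∉ ({0, -1} : Set ℤ) :=
    (Set.toFinite ({0, -1} : Set ℤ)).compl_mem_cofinite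
  filter_upwards [h2] with m hm
  simp only [mem_insert_iff, mem_singleton_iff, not_or] at hm
  have h3 : 0 ≤ cs (fun e => |xj f m e|) (ω m) := by
    unfold cs; exact Finset.sum_nonneg fun i _ => abs_nonneg _
  rw [Real.norm_of_nonneg h3]
  refine (cs_bound h hb hs hm.1 hm.2).trans ?_
  have := pow_cmp m
  gcongr

theorem summable_cs {ω : W} (h : ω ∈ Gd) {f : ℝ → ℝ} {M T : ℝ} (hb : ∀ u, |f u| ≤ M)
    (hs : ∀ u, u ∉ Ioc 0 T → f u = 0) :
    Summable (fun m : ℤ => cs (xj f m) (ω m)) :=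
  Summable.of_norm_bounded (summable_cs_abs h hb hs) fun _ => cs_abs_le _ _

/-- the indicator function of `(0, t]` -/
def ind (t u : ℝ) : ℝ := (Ioc (0:ℝ) t).indicator (fun _ => (1:ℝ)) u

theorem ind_bd (t u : ℝ) : |ind t u| ≤ 1 := by
  unfold ind
  by_cases h : u ∈ Ioc (0:ℝ) t
  · rw [indicator_of_mem h]; simp
  · rw [indicator_of_notMem h]; simp

theorem ind_zero (t u : ℝ) (h : u ∉ Ioc 0 t) : ind t u = 0 := indicator_of_notMem h _

theorem measurable_ind (t : ℝ) : Measurable (ind t) :=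
  measurable_const.indicator measurableSet_Ioc

open Classical in
/-- the process -/
def X (t : ℝ) (ω : W) : ℝ := if ω ∈ Gd then ∑' m : ℤ, cs (xj (ind t) m) (ω m) else 0

theorem X_hasSum {ω : W} (h : ω ∈ Gd) (t : ℝ) :
    HasSum (fun m : ℤ => cs (xj (ind t) m) (ω m)) (X t ω) := by
  unfold X
  rw [if_pos h]
  exact (summable_cs h (ind_bd t) (ind_zero t)).hasSum

theorem measurable_X (t : ℝ) : Measurable (X t) := by
  classical
  have h1 : StronglyMeasurable (X t) := by
    refine StronglyMeasurable.hasSum (L := SummationFilter.unconditional ℤ)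
      (f := fun (m : ℤ) (ω : W) => Gd.indicator (fun ω => cs (xj (ind t) m) (ω m)) ω)
      (fun m => ?_) (fun ω => ?_)
    · refine Measurable.stronglyMeasurable ?_
      exact ((measurable_cs (measurable_xj (measurable_ind t) m)).comp
        (measurable_pi_apply m)).indicator measurableSet_Gd
    · by_cases h : ω ∈ Gd
      · simp only [indicator_of_mem h]
        exact X_hasSum h t
      · simp only [indicator_of_notMem h]
        unfold X
        rw [if_neg h]
        exact hasSum_zero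
  exact h1.measurable

theorem X_zero (ω : W) : X 0 ω = 0 := by
  classical
  unfold X
  split_ifs with h
  · have : ∀ m : ℤ, cs (xj (ind 0) m) (ω m) = 0 := by
      intro m
      unfold cs xj ind
      simp
    simp [this]
  · rfl

end

end Pool.Agent.Q30.LV
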